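import Pool.Agent.Y957.MC.Spec
import Pool.Agent.H165R3.BPE

/-!
# Project MC: the error term at Beatty times (`S_BTY2`)
-/

set_option autoImplicit false

namespace Pool.Agent.Y925.MC

open MeasureTheory Filter Finset Topology Pool.Agent.Y957.MC

universe u

/-! ### Averages of step functions -/

private lemma step_meas (b : ℕ → ℝ) : Measurable (fun v : ℝ => b ⌊v⌋₊) :=
  (measurable_from_nat (f := b)).comp Nat.measurable_floor

private lemma step_int (b : ℕ → ℝ) (hb : ∀ k, 0 ≤ b k ∧ b k ≤ 1) (s t : ℝ) :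
    IntervalIntegrable (fun v : ℝ => b ⌊v⌋₊) volume s t := by
  have h1 : IntervalIntegrable (fun _ : ℝ => (1 : ℝ)) volume s t := intervalIntegrable_const
  refine h1.mono_fun' (step_meas b).aestronglyMeasurable ?_
  filter_upwards with v
  rw [Real.norm_eq_abs, abs_of_nonneg (hb _).1]
  exact (hb _).2

private lemma step_piece (b : ℕ → ℝ) (n : ℕ) :
    ∫ v in (n : ℝ)..(n + 1 : ℝ), b ⌊v⌋₊ = b n := by
  have h1 : ∫ v in (n : ℝ)..(n + 1 : ℝ), b ⌊v⌋₊ = ∫ _v in (n : ℝ)..(n + 1 : ℝ), b n := by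
    apply intervalIntegral.integral_congr_ae
    have hne : ∀ᵐ v : ℝ, v ≠ (n + 1 : ℝ) := by
      simp [ae_iff]
    filter_upwards [hne] with v hv hv'
    rw [Set.uIoc_of_le (by linarith)] at hv'
    have h2 : ⌊v⌋₊ = n := by
      rw [Nat.floor_eq_iff (by have := hv'.1; have : (0 : ℝ) ≤ n := Nat.cast_nonneg n; linarith)]
      exact ⟨hv'.1.le, lt_of_le_of_ne hv'.2 hv⟩
    rw [h2]
  rw [h1, intervalIntegral.integral_const]
  simp

private lemma step_sum (b : ℕ → ℝ) (hb : ∀ k, 0 ≤ b k ∧ b k ≤ 1) (n : ℕ) :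
    ∫ v in (0 : ℝ)..n, b ⌊v⌋₊ = ∑ k ∈ range n, b k := by
  induction n with
  | zero => simp
  | succ n ih =>
    rw [Finset.sum_range_succ, ← ih, ← step_piece b n]
    push_cast
    exact (intervalIntegral.integral_add_adjacent_intervals (step_int b hb _ _)
      (step_int b hb _ _)).symm

private lemma step_le (b : ℕ → ℝ) (hb : ∀ k, 0 ≤ b k ∧ b k ≤ 1) (r : ℝ) (hr0 : 0 < r)
    (hr1 : r ≤ 1) (V : ℝ) (hV : 1 ≤ V) :
    ∫ v in (0 : ℝ)..V, b ⌊v - 1 + r⌋₊ ≤ 1 + ∑ k ∈ range (⌊V⌋₊ + 1), b k := by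
  have h1 : ∫ v in (0 : ℝ)..V, b ⌊v - 1 + r⌋₊ = ∫ v in (0 + (r - 1))..(V + (r - 1)), b ⌊v⌋₊ := by
    rw [← intervalIntegral.integral_comp_add_right (fun v => b ⌊v⌋₊) (r - 1)]
    congr 1
    funext v
    congr 2
    ring
  have h2 : V ≤ (⌊V⌋₊ + 1 : ℕ) := by
    push_cast
    exact (Nat.lt_floor_add_one V).le
  rw [h1, ← intervalIntegral.integral_add_adjacent_intervals (step_int b hb _ 0)
    (step_int b hb 0 _), ← step_sum b hb (⌊V⌋₊ + 1)]
  have h3 : ∫ v in (0 + (r - 1))..0, b ⌊v⌋₊ ≤ ∫ _v in (0 + (r - 1))..0, (1 : ℝ) := by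
    apply intervalIntegral.integral_mono_on (by linarith) (step_int b hb _ _)
      intervalIntegrable_const
    intro v _
    exact (hb _).2
  rw [intervalIntegral.integral_const, smul_eq_mul, mul_one] at h3
  have h4 : ∫ v in (0 : ℝ)..(V + (r - 1)), b ⌊v⌋₊ ≤ ∫ v in (0 : ℝ)..(⌊V⌋₊ + 1 : ℕ), b ⌊v⌋₊ := by
    have h6 := intervalIntegral.integral_add_adjacent_intervals
      (step_int b hb 0 (V + (r - 1))) (step_int b hb (V + (r - 1)) (⌊V⌋₊ + 1 : ℕ))
    have h5 : 0 ≤ ∫ v in (V + (r - 1))..(⌊V⌋₊ + 1 : ℕ), b ⌊v⌋₊ := by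
      apply intervalIntegral.integral_nonneg (by linarith)
      intro v _
      exact (hb _).1
    linarith
  linarith

private lemma avg_bound (b : ℕ → ℝ) (hb : ∀ k, 0 ≤ b k ∧ b k ≤ 1) (β : ℝ)
    (h : Tendsto (fun n : ℕ => (n : ℝ)⁻¹ * ∑ k ∈ range n, b k) atTop (𝓝 β)) (r : ℝ) (hr0 : 0 < r)
    (hr1 : r ≤ 1) (η : ℝ) (hη : 0 < η) :
    ∀ᶠ V : ℝ in atTop, (1 / V) * ∫ v in (0 : ℝ)..V, b ⌊v - 1 + r⌋₊ ≤ β + η := by
  have hfl : Tendsto (fun V : ℝ => ⌊V⌋₊ + 1) atTop atTop :=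
    (tendsto_add_atTop_nat 1).comp tendsto_nat_floor_atTop
  have h1 := h.comp hfl
  have h2 : Tendsto (fun V : ℝ => (⌊V⌋₊ : ℝ) / V) atTop (𝓝 1) := tendsto_nat_floor_div_atTop
  have h3 : Tendsto (fun V : ℝ => V⁻¹) atTop (𝓝 0) := tendsto_inv_atTop_zero
  have h4 : Tendsto (fun V : ℝ => V⁻¹ + ((⌊V⌋₊ : ℝ) / V + V⁻¹) *
      (((⌊V⌋₊ + 1 : ℕ) : ℝ)⁻¹ * ∑ k ∈ range (⌊V⌋₊ + 1), b k)) atTop (𝓝 (0 + (1 + 0) * β)) :=
    h3.add ((h2.add h3).mul h1)
  rw [add_zero, one_mul, zero_add] at h4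
  have h5 := h4.eventually (gt_mem_nhds (show β < β + η by linarith))
  filter_upwards [h5, eventually_ge_atTop (1 : ℝ)] with V hV1 hV2
  have hV0 : 0 < V := by linarith
  refine le_trans ?_ hV1.le
  have h6 := mul_le_mul_of_nonneg_left (step_le b hb r hr0 hr1 V hV2) (one_div_pos.mpr hV0).le
  refine h6.trans (le_of_eq ?_)
  have h7 : ((⌊V⌋₊ + 1 : ℕ) : ℝ) ≠ 0 := by positivity
  push_cast at h7 ⊢
  field_simp

/-! ### The stationary process -/

section process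
variable {X : Type u} [MeasurableSpace X] {μ : Measure X} [IsProbabilityMeasure μ] {T : X → X}
  {e : X → ℝ}

private lemma proc_meas (hT : Measurable T) (he : Measurable e) :
    Measurable (fun q : (X × ℝ) × ℝ => e (T^[⌊q.2 - 1 + q.1.2⌋₊] q.1.1)) := by
  have h1 : Measurable (fun q : X × ℕ => e (T^[q.2] q.1)) := by
    apply measurable_from_prod_countable_left
    intro n
    exact he.comp (hT.iterate n)
  have h2 : Measurable (fun q : (X × ℝ) × ℝ => (q.1.1, ⌊q.2 - 1 + q.1.2⌋₊)) := by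
    apply Measurable.prodMk
    · exact measurable_fst.comp measurable_fst
    · exact Nat.measurable_floor.comp
        ((measurable_snd.sub measurable_const).add (measurable_snd.comp measurable_fst))
  exact h1.comp h2

private lemma proc_cov (hT : MeasurePreserving T μ μ) (he : Measurable e)
    (hb : ∀ x, 0 ≤ e x ∧ e x ≤ 1) (v w : ℝ) (hv : 1 ≤ v) (hvw : v ≤ w) :
    ∫ z, e (T^[⌊v - 1 + z.2⌋₊] z.1) * e (T^[⌊w - 1 + z.2⌋₊] z.1)
        ∂(μ.prod (volume.restrict (Set.Ioc (0 : ℝ) 1))) =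
      ∫ ρ in (0 : ℝ)..1, ∫ x, e x * e (T^[(⌊ρ + (w - v)⌋ - ⌊ρ⌋).toNat] x) ∂μ := by
  set c : ℕ → ℝ := fun k => ∫ x, e x * e (T^[k] x) ∂μ with hc
  have hm := proc_meas hT.measurable he
  have hmv : ∀ s : ℝ, Measurable (fun z : X × ℝ => e (T^[⌊s - 1 + z.2⌋₊] z.1)) := by
    intro s
    exact hm.comp (measurable_id.prodMk measurable_const)
  have hint : Integrable (fun z : X × ℝ => e (T^[⌊v - 1 + z.2⌋₊] z.1) *
      e (T^[⌊w - 1 + z.2⌋₊] z.1)) (μ.prod (volume.restrict (Set.Ioc (0 : ℝ) 1))) := by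
    refine Integrable.mono' (integrable_const (1 : ℝ))
      ((hmv v).mul (hmv w)).aestronglyMeasurable ?_
    filter_upwards with z
    rw [Real.norm_eq_abs, abs_of_nonneg (mul_nonneg (hb _).1 (hb _).1)]
    exact mul_le_one₀ (hb _).2 (hb _).1 (hb _).2
  rw [integral_prod_symm _ hint]
  -- the inner integral
  have hin : ∀ m n : ℕ, m ≤ n → ∫ x, e (T^[m] x) * e (T^[n] x) ∂μ = c (n - m) := by
    intro m n hmn
    have h1 := integral_map (μ := μ) (φ := T^[m]) (f := fun y => e y * e (T^[n - m] y))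
      (hT.measurable.iterate m).aemeasurable
      ((he.mul (he.comp (hT.measurable.iterate _))).aestronglyMeasurable)
    rw [(hT.iterate m).map_eq] at h1
    rw [hc]
    simp only
    rw [h1]
    congr 1
    funext x
    rw [← Function.iterate_add_apply, Nat.sub_add_cancel hmn]
  set G : ℝ → ℝ := fun ρ => c (⌊ρ + (w - v)⌋ - ⌊ρ⌋).toNat with hG
  have h1 : ∫ y in Set.Ioc (0 : ℝ) 1, ∫ x, e (T^[⌊v - 1 + y⌋₊] x) * e (T^[⌊w - 1 + y⌋₊] x) ∂μ =
      ∫ y in Set.Ioc (0 : ℝ) 1, G (y + (v - 1)) := by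
    apply setIntegral_congr_fun measurableSet_Ioc
    intro y hy
    have hy0 : 0 ≤ v - 1 + y := by have := hy.1; linarith
    have hle : ⌊v - 1 + y⌋₊ ≤ ⌊w - 1 + y⌋₊ := Nat.floor_mono (by linarith)
    simp only
    rw [hin _ _ hle]
    simp only [hG]
    congr 1
    have e1 : y + (v - 1) = v - 1 + y := by ring
    have e2 : y + (v - 1) + (w - v) = w - 1 + y := by ring
    rw [e2, e1]
    have f1 : (⌊v - 1 + y⌋₊ : ℤ) = ⌊v - 1 + y⌋ := Int.natCast_floor_eq_floor hy0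
    have f2 : (⌊w - 1 + y⌋₊ : ℤ) = ⌊w - 1 + y⌋ := Int.natCast_floor_eq_floor (by linarith)
    rw [← f1, ← f2]
    omega
  rw [h1, ← intervalIntegral.integral_of_le (zero_le_one),
    intervalIntegral.integral_comp_add_right G (v - 1)]
  have hper : Function.Periodic G 1 := by
    intro ρ
    simp only [hG]
    have e1 : ρ + 1 + (w - v) = ρ + (w - v) + 1 := by ring
    rw [e1, Int.floor_add_one, Int.floor_add_one]
    congr 2
    ring
  have h2 := hper.intervalIntegral_add_eq (0 + (v - 1)) 0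
  have e2 : (1 : ℝ) + (v - 1) = 0 + (v - 1) + 1 := by ring
  rw [e2, h2, zero_add]

end process

theorem bty2 (h : S_SGL.{u}) : S_BTY2.{u} := by
  intro p hp
  obtain ⟨K, hK0, hK⟩ := h p hp
  refine ⟨fun ε => 2 * K (ε / 8), fun ε => by have := hK0 (ε / 8); positivity, ?_⟩
  intro X _ μ _ T e hT he hb
  set e2 : X → ℝ := fun x => (e x + e (T x)) / 2 with he2
  have he2m : Measurable e2 := (he.add (he.comp hT.measurable)).div_const 2
  have he2b : ∀ x, 0 ≤ e2 x ∧ e2 x ≤ 1 := by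
    intro x
    have h1 := hb x
    have h2 := hb (T x)
    simp only [he2]
    constructor <;> linarith
  have hprob : IsProbabilityMeasure (volume.restrict (Set.Ioc (0 : ℝ) 1)) :=
    ⟨by simp⟩
  have h1 := hK (X × ℝ) (μ.prod (volume.restrict (Set.Ioc (0 : ℝ) 1)))
    (fun z u => e2 (T^[⌊u - 1 + z.2⌋₊] z.1))
    (fun t => ∫ ρ in (0 : ℝ)..1, ∫ x, e2 x * e2 (T^[(⌊ρ + t⌋ - ⌊ρ⌋).toNat] x) ∂μ)
    (proc_meas hT.measurable he2m) (fun z u => he2b _)
    (fun v w hv hvw => proc_cov hT he2m he2b v w hv hvw)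
  have h2 := Measure.ae_ae_of_ae_prod h1
  have hBk := Pool.Agent.H165R3.BPE.birkhoff hT e he 1 (fun x => by
    rw [abs_of_nonneg (hb x).1]; exact (hb x).2)
  filter_upwards [h2, hBk] with x hx1 hx2
  set β := (μ[e | MeasurableSpace.invariants T]) x with hβ
  have hne : (volume.restrict (Set.Ioc (0 : ℝ) 1)) ≠ 0 := hprob.ne_zero
  have hnb : (ae (volume.restrict (Set.Ioc (0 : ℝ) 1))).NeBot := ae_neBot.mpr hne
  obtain ⟨r, hr, hr01⟩ := (hx1.and (ae_restrict_mem measurableSet_Ioc)).exists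
  -- the averages of `e2` along the orbit
  have hlim : Tendsto (fun n : ℕ => (n : ℝ)⁻¹ * ∑ k ∈ range n, e2 (T^[k] x)) atTop (𝓝 β) := by
    have h3 : ∀ n : ℕ, ∑ k ∈ range n, e2 (T^[k] x) =
        ∑ k ∈ range n, e (T^[k] x) + (e (T^[n] x) - e x) / 2 := by
      intro n
      induction n with
      | zero => simp
      | succ n ih =>
        rw [Finset.sum_range_succ, ih, Finset.sum_range_succ]
        simp only [he2, ← Function.iterate_succ_apply' T]
        ring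
    have h4 : Tendsto (fun n : ℕ => (n : ℝ)⁻¹ * ((e (T^[n] x) - e x) / 2)) atTop (𝓝 0) := by
      apply squeeze_zero_norm (a := fun n : ℕ => (n : ℝ)⁻¹)
      · intro n
        rw [norm_mul, Real.norm_eq_abs, Real.norm_eq_abs, abs_of_nonneg (by positivity)]
        have h5 := hb (T^[n] x)
        have h6 := hb x
        have h7 : |(e (T^[n] x) - e x) / 2| ≤ 1 := by
          rw [abs_le]
          constructor <;> linarith
        exact mul_le_of_le_one_right (by positivity) h7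
      · exact tendsto_inv_atTop_nhds_zero_nat
    have h5 := hx2.add h4
    rw [add_zero] at h5
    refine h5.congr (fun n => ?_)
    rw [h3 n, mul_add]
  filter_upwards [hr, ae_restrict_mem measurableSet_Ioi] with a ha ha0
  intro ε hε
  have ha0' : 0 < a := ha0
  have hKe := hK0 (ε / 8)
  set η : ℝ := ε / (8 * K (ε / 8)) with hη
  have hη0 : 0 < η := by positivity
  have h3 := avg_bound (fun k => e2 (T^[k] x)) (fun k => he2b _) β hlim r hr01.1 hr01.2 η hη0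
  have h4 := ha (ε / 8) (β + η) (by positivity) h3
  -- the times are large
  obtain ⟨c, hc, hlow⟩ := hp.low
  have h5 : ∀ᶠ n : ℕ in atTop, 1 ≤ a * p n := by
    have h6 : Tendsto (fun n : ℕ => a * (n : ℝ) ^ c) atTop atTop :=
      ((tendsto_rpow_atTop hc).comp tendsto_natCast_atTop_atTop).const_mul_atTop ha0'
    filter_upwards [h6.eventually_ge_atTop 1, hlow] with n h7 h8
    exact h7.trans (mul_le_mul_of_nonneg_left h8 ha0'.le)
  obtain ⟨n₀, hn₀⟩ := eventually_atTop.mp h5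
  have h6 : ∀ᶠ N : ℕ in atTop, (n₀ : ℝ) / N ≤ ε / 2 := by
    have h7 : Tendsto (fun N : ℕ => (n₀ : ℝ) / N) atTop (𝓝 0) :=
      tendsto_const_div_atTop_nhds_zero_nat _
    exact (h7.eventually (gt_mem_nhds (show (0 : ℝ) < ε / 2 by positivity))).mono
      (fun N hN => hN.le)
  filter_upwards [h4, h6, eventually_ge_atTop 1] with N hN1 hN2 hN3
  have hN0 : (0 : ℝ) < N := by exact_mod_cast hN3
  -- the pointwise bound
  have hpt : ∀ n, n₀ ≤ n → e (T^[⌊a * p n⌋₊] x) ≤ 2 * e2 (T^[⌊a * p n - 1 + r⌋₊] x) := by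
    intro n hn
    have h7 := hn₀ n hn
    set t := a * p n with ht
    have hfl : ⌊t - 1 + r⌋₊ = ⌊t⌋₊ ∨ ⌊t - 1 + r⌋₊ + 1 = ⌊t⌋₊ := by
      have f1 : ⌊t - 1 + r⌋₊ ≤ ⌊t⌋₊ := Nat.floor_mono (by linarith [hr01.2])
      have f2 : ⌊t⌋₊ ≤ ⌊t - 1 + r⌋₊ + 1 := by
        rw [← Nat.floor_add_one (by linarith [hr01.1])]
        exact Nat.floor_mono (by linarith [hr01.1])
      omega
    rcases hfl with hfl | hfl
    · rw [hfl]
      simp only [he2]
      linarith [(hb (T (T^[⌊t⌋₊] x))).1]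
    · rw [← hfl, Function.iterate_succ_apply']
      simp only [he2]
      linarith [(hb (T^[⌊t - 1 + r⌋₊] x)).1]
  have hsum : ∑ n ∈ Icc 1 N, e (T^[⌊a * p n⌋₊] x) ≤
      n₀ + 2 * ∑ n ∈ Icc 1 N, e2 (T^[⌊a * p n - 1 + r⌋₊] x) := by
    have h8 : ∀ n ∈ Icc 1 N, e (T^[⌊a * p n⌋₊] x) ≤
        (if n < n₀ then 1 else 0) + 2 * e2 (T^[⌊a * p n - 1 + r⌋₊] x) := by
      intro n _
      split_ifs with h9
      · linarith [(hb (T^[⌊a * p n⌋₊] x)).2, (he2b (T^[⌊a * p n - 1 + r⌋₊] x)).1]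
      · rw [zero_add]
        exact hpt n (not_lt.mp h9)
    refine (Finset.sum_le_sum h8).trans ?_
    rw [Finset.sum_add_distrib, ← Finset.mul_sum, Finset.sum_ite, Finset.sum_const_zero, add_zero,
      Finset.sum_const, nsmul_eq_mul, mul_one]
    have h10 : #{n ∈ Icc 1 N | n < n₀} ≤ n₀ := by
      calc #{n ∈ Icc 1 N | n < n₀} ≤ #(range n₀) := Finset.card_le_card (by
            intro n hn
            rw [Finset.mem_filter] at hn
            exact Finset.mem_range.mpr hn.2)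
        _ = n₀ := Finset.card_range n₀
    have h11 : ((#{n ∈ Icc 1 N | n < n₀} : ℕ) : ℝ) ≤ n₀ := by exact_mod_cast h10
    linarith
  have h12 := mul_le_mul_of_nonneg_left hsum (one_div_pos.mpr hN0).le
  have h13 : K (ε / 8) * η = ε / 8 := by
    rw [hη]
    field_simp
  calc 1 / (N : ℝ) * ∑ n ∈ Icc 1 N, e (T^[⌊a * p n⌋₊] x)
      ≤ 1 / (N : ℝ) * (n₀ + 2 * ∑ n ∈ Icc 1 N, e2 (T^[⌊a * p n - 1 + r⌋₊] x)) := h12
    _ = n₀ / N + 2 * (1 / (N : ℝ) * ∑ n ∈ Icc 1 N, e2 (T^[⌊a * p n - 1 + r⌋₊] x)) := by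
        field_simp
    _ ≤ ε / 2 + 2 * (ε / 8 + K (ε / 8) * (β + η)) := by
        have h14 : 1 / (N : ℝ) * ∑ n ∈ Icc 1 N, e2 (T^[⌊a * p n - 1 + r⌋₊] x) ≤
            ε / 8 + K (ε / 8) * (β + η) := hN1
        linarith
    _ = ε + 2 * K (ε / 8) * β := by
        rw [mul_add (K (ε / 8)), h13]
        ring

end Pool.Agent.Y925.MC
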